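import Mathlib
import Pool.Agent.R530.VPAna

/-!
# The support of the deterministic equivalent of an irreducible variance profile is a disc
-/

set_option autoImplicit false

namespace Pool.Agent.Results.MP_44eb1e_pr.DiscSupport

open MeasureTheory Set Filter Topology Pool.Agent.R530

/-! ### Definitions of the problem -/

/-- `V = (σ_ij ^ 2) / n`. -/
noncomputable def profile {n : ℕ} (σ : Matrix (Fin n) (Fin n) ℝ) : Matrix (Fin n) (Fin n) ℝ :=
  fun i j => (σ i j) ^ 2 / n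

/-- `σ` is entrywise nonnegative and irreducible: the digraph with an edge `i → j` whenever
`σ i j > 0` is strongly connected. -/
structure Irreducible {n : ℕ} (σ : Matrix (Fin n) (Fin n) ℝ) : Prop where
  nonneg : ∀ i j, 0 ≤ σ i j
  connected : ∀ i j, Relation.ReflTransGen (fun a b => 0 < σ a b) i j

/-- The spectral radius of `V`. -/
noncomputable def rho {n : ℕ} (V : Matrix (Fin n) (Fin n) ℝ) : ℝ :=
  (spectralRadius ℂ (V.map (fun x : ℝ => (x : ℂ)))).toReal

/-- `(q, p)` is a nonnegative solution of the Master Equations at `s`. -/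
structure Master {n : ℕ} (V : Matrix (Fin n) (Fin n) ℝ) (s : ℝ) (q p : Fin n → ℝ) : Prop where
  q_nonneg : ∀ i, 0 ≤ q i
  p_nonneg : ∀ i, 0 ≤ p i
  eq_q : ∀ i, q i = (∑ j, V j i * q j) / (s ^ 2 + (∑ j, V i j * p j) * ∑ j, V j i * q j)
  eq_p : ∀ i, p i = (∑ j, V i j * p j) / (s ^ 2 + (∑ j, V i j * p j) * ∑ j, V j i * q j)
  sum_eq : ∑ i, q i = ∑ i, p i

/-- `(q(s), p(s))` is the selected solution of the Master Equations for every `s > 0`: a nonzero one
when `s ^ 2 < ρ(V)` (for `s ^ 2 ≥ ρ(V)` the zero solution is the only one). -/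
structure Selected {n : ℕ} (V : Matrix (Fin n) (Fin n) ℝ) (q p : ℝ → Fin n → ℝ) : Prop where
  sol : ∀ s, 0 < s → Master V s (q s) (p s)
  nonzero : ∀ s, 0 < s → s < √(rho V) → ¬ (q s = 0 ∧ p s = 0)

/-- `μ` is the deterministic equivalent of the variance profile `σ`. -/
structure IsDetEquiv {n : ℕ} (σ : Matrix (Fin n) (Fin n) ℝ) (μ : Measure ℂ) : Prop where
  prob : IsProbabilityMeasure μ
  radial : ∀ c : ℂ, ‖c‖ = 1 → μ.map (fun z => c * z) = μ
  cdf : ∃ q p : ℝ → Fin n → ℝ, Selected (profile σ) q p ∧ ∀ s, 0 < s →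
    μ.real {z | ‖z‖ ≤ s} = 1 - 1 / n * ∑ i, q s i * ∑ j, profile σ i j * p s j

/-! ### Proof -/

theorem good_of {n : ℕ} (hn : 1 ≤ n) {σ : Matrix (Fin n) (Fin n) ℝ} (h : Irreducible σ) :
    VP.Good (profile σ) where
  nonneg := fun i j => by unfold profile; positivity
  irr := fun i j => by
    have hmono : ∀ a b : Fin n, 0 < σ a b → 0 < profile σ a b := by
      intro a b hab
      have : (0 : ℝ) < n := by exact_mod_cast hn
      show 0 < (σ a b) ^ 2 / n
      positivity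
    exact Relation.ReflTransGen.mono hmono i j (h.connected i j)

theorem isSol_of {n : ℕ} {V : Matrix (Fin n) (Fin n) ℝ} {s : ℝ} {q p : Fin n → ℝ}
    (h : Master V s q p) : VP.IsSol V s q p :=
  ⟨h.q_nonneg, h.p_nonneg, h.eq_q, h.eq_p, h.sum_eq⟩

/-- the mass function is not constant near any point of `(0, √ρ)` -/
theorem not_const {n : ℕ} (hn : 1 ≤ n) {V : Matrix (Fin n) (Fin n) ℝ} (h : VP.Good V)
    {q p : ℝ → Fin n → ℝ} (hsel : Selected V q p) {s0 : ℝ} (hs0 : 0 < s0) (hs1 : s0 < √(rho V))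
    (hconst : (fun s => ∑ i, q s i * VP.bv V (p s) i) =ᶠ[𝓝 s0]
      fun _ => ∑ i, q s0 i * VP.bv V (p s0) i) : False := by
  set R := √(rho V) with hR
  have hRpos : 0 < R := hs0.trans hs1
  have hρpos : 0 < rho V := Real.sqrt_pos.1 hRpos
  have hana : AnalyticOnNhd ℝ (fun s => ∑ i, q s i * VP.bv V (p s) i) (Ioo 0 R) :=
    VP.family_analytic h (fun s hs _ => isSol_of (hsel.sol s hs)) hsel.nonzero
  set κ := ∑ i, q s0 i * VP.bv V (p s0) i with hκ
  have heq : EqOn (fun s => ∑ i, q s i * VP.bv V (p s) i) (fun _ => κ) (Ioo 0 R) :=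
    hana.eqOn_of_preconnected_of_eventuallyEq analyticOnNhd_const isPreconnected_Ioo
      ⟨hs0, hs1⟩ hconst
  have hposs : ∀ s, 0 < s → s < R → (∀ i, 0 < q s i) ∧ ∀ i, 0 < p s i := fun s h0 h1 =>
    (isSol_of (hsel.sol s h0)).pos h h0 (hsel.nonzero s h0 h1)
  have : Nonempty (Fin n) := ⟨⟨0, hn⟩⟩
  have hκpos : 0 < κ := by
    obtain ⟨hq, hp⟩ := hposs s0 hs0 hs1
    refine Finset.sum_pos (fun i _ => mul_pos (hq i) ?_) Finset.univ_nonempty
    exact ((isSol_of (hsel.sol s0 hs0)).facts h hs0 hq hp i).2.1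
  let s : ℕ → ℝ := fun k => R * (1 - 1 / ((k : ℝ) + 2))
  have hfrac : ∀ k : ℕ, 0 < 1 / ((k : ℝ) + 2) ∧ 1 / ((k : ℝ) + 2) < 1 := by
    intro k
    have hk : (0 : ℝ) ≤ k := Nat.cast_nonneg k
    refine ⟨by positivity, ?_⟩
    rw [div_lt_one (by positivity)]
    linarith
  have hspos : ∀ k, 0 < s k := fun k => mul_pos hRpos (by linarith [(hfrac k).2])
  have hslt : ∀ k, s k < R := fun k => by
    have h1 : R * (1 - 1 / ((k : ℝ) + 2)) < R * 1 :=
      mul_lt_mul_of_pos_left (by linarith [(hfrac k).1]) hRpos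
    rw [mul_one] at h1
    exact h1
  have hslim : Tendsto s atTop (𝓝 R) := by
    have h1 : Tendsto (fun k : ℕ => 1 / ((k : ℝ) + 2)) atTop (𝓝 0) := by
      have := (tendsto_natCast_atTop_atTop (R := ℝ)).atTop_add
        (tendsto_const_nhds (x := (2 : ℝ)) (f := atTop (α := ℕ)))
      refine this.inv_tendsto_atTop.congr fun k => ?_
      rw [one_div]
      rfl
    have h2 : Tendsto (fun k : ℕ => R * (1 - 1 / ((k : ℝ) + 2))) atTop (𝓝 (R * (1 - 0))) :=
      (tendsto_const_nhds.sub h1).const_mul R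
    rw [sub_zero, mul_one] at h2
    exact h2
  have hsq : Tendsto (fun k => (s k) ^ 2) atTop (𝓝 (VP.specRad V)) := by
    have h1 := hslim.pow 2
    have h2 : R ^ 2 = VP.specRad V := by
      rw [hR, Real.sq_sqrt hρpos.le]
      rfl
    rwa [h2] at h1
  exact VP.edge_contradiction h hρpos s hspos hsq (fun k => q (s k)) (fun k => p (s k))
    (fun k => isSol_of (hsel.sol _ (hspos k))) (fun k => (hposs _ (hspos k) (hslt k)).1)
    (fun k => (hposs _ (hspos k) (hslt k)).2) hκpos (fun k => heq ⟨hspos k, hslt k⟩)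

/-- points of the open punctured disc lie in the support -/
theorem mem_support {n : ℕ} (hn : 1 ≤ n) {σ : Matrix (Fin n) (Fin n) ℝ} (hσ : Irreducible σ)
    {μ : Measure ℂ} (hμ : IsDetEquiv σ μ) {z : ℂ} (hz0 : 0 < ‖z‖)
    (hz1 : ‖z‖ < √(rho (profile σ))) : z ∈ μ.support := by
  have hV := good_of hn hσ
  have := hμ.prob
  obtain ⟨q, p, hsel, hcdf⟩ := hμ.cdf
  have hn0 : (0 : ℝ) < n := by exact_mod_cast hn
  by_contra hcon
  obtain ⟨U, hU, hU0⟩ := Measure.notMem_support_iff_exists.1 hcon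
  obtain ⟨r, hr, hrU⟩ := Metric.mem_nhds_iff.1 hU
  have hball : μ (Metric.ball z r) = 0 := measure_mono_null hrU hU0
  have hrot : ∀ c : ℂ, ‖c‖ = 1 → μ (Metric.ball (c * z) r) = 0 := by
    intro c hc
    rw [← hμ.radial c hc, Measure.map_apply (measurable_const_mul c) Metric.isOpen_ball.measurableSet]
    have : (fun w => c * w) ⁻¹' Metric.ball (c * z) r = Metric.ball z r := by
      ext w
      simp only [mem_preimage, Metric.mem_ball, dist_eq_norm]
      rw [← mul_sub, norm_mul, hc, one_mul]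
    rw [this]
    exact hball
  have hann : ∀ w : ℂ, w ≠ 0 → |‖w‖ - ‖z‖| < r → w ∉ μ.support := by
    intro w hw hwr
    have hwn : 0 < ‖w‖ := norm_pos_iff.2 hw
    have hzne : z ≠ 0 := norm_pos_iff.1 hz0
    set c : ℂ := w / z * ((‖z‖ / ‖w‖ : ℝ) : ℂ) with hc
    have hcn : ‖c‖ = 1 := by
      rw [hc, norm_mul, norm_div, Complex.norm_real, Real.norm_eq_abs,
        abs_of_pos (div_pos hz0 hwn)]
      field_simp
    have hcz : c * z = w * ((‖z‖ / ‖w‖ : ℝ) : ℂ) := by
      rw [hc]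
      field_simp
    refine Measure.notMem_support_iff_exists.2
      ⟨Metric.ball (c * z) r, Metric.isOpen_ball.mem_nhds ?_, hrot c hcn⟩
    rw [Metric.mem_ball, dist_eq_norm, hcz]
    have h1 : w - w * ((‖z‖ / ‖w‖ : ℝ) : ℂ) = w * (((‖w‖ - ‖z‖) / ‖w‖ : ℝ) : ℂ) := by
      have : (‖w‖ - ‖z‖) / ‖w‖ = 1 - ‖z‖ / ‖w‖ := by
        rw [sub_div, div_self hwn.ne']
      rw [this]
      push_cast
      ring
    rw [h1, norm_mul, Complex.norm_real, Real.norm_eq_abs, abs_div, abs_of_pos hwn,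
      mul_div_cancel₀ _ hwn.ne']
    exact hwr
  have hnull : μ (μ.support)ᶜ = 0 := Measure.measure_compl_support
  -- the distribution function is constant near `‖z‖`
  refine not_const hn hV hsel hz0 hz1 ?_
  have hnb : Ioo (max 0 (‖z‖ - r)) (‖z‖ + r) ∈ 𝓝 ‖z‖ :=
    Ioo_mem_nhds (max_lt hz0 (by linarith)) (by linarith)
  have hpair : ∀ a b : ℝ, a ∈ Ioo (max 0 (‖z‖ - r)) (‖z‖ + r) →
      b ∈ Ioo (max 0 (‖z‖ - r)) (‖z‖ + r) → a ≤ b →
      μ.real {w : ℂ | ‖w‖ ≤ a} = μ.real {w : ℂ | ‖w‖ ≤ b} := by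
    intro a b ha hb hab
    have hsub : {w : ℂ | ‖w‖ ≤ a} ⊆ {w : ℂ | ‖w‖ ≤ b} := fun w (hw : ‖w‖ ≤ a) => hw.trans hab
    have hmeas : MeasurableSet {w : ℂ | ‖w‖ ≤ a} :=
      (isClosed_le continuous_norm continuous_const).measurableSet
    have hdiff : μ ({w : ℂ | ‖w‖ ≤ b} \ {w : ℂ | ‖w‖ ≤ a}) = 0 := by
      refine measure_mono_null ?_ hnull
      rintro w ⟨hw1, hw2⟩
      have hw1' : ‖w‖ ≤ b := hw1
      have hw2' : a < ‖w‖ := not_le.1 hw2
      have ha0 : 0 < a := (le_max_left _ _).trans_lt ha.1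
      have ha1 : ‖z‖ - r < a := (le_max_right _ _).trans_lt ha.1
      refine hann w (norm_pos_iff.1 (ha0.trans hw2')) ?_
      rw [abs_lt]
      constructor
      · linarith
      · linarith [hb.2]
    have h3 : μ {w : ℂ | ‖w‖ ≤ b} = μ {w : ℂ | ‖w‖ ≤ a} := by
      apply le_antisymm
      · calc μ {w : ℂ | ‖w‖ ≤ b}
            ≤ μ ({w : ℂ | ‖w‖ ≤ a} ∪ ({w : ℂ | ‖w‖ ≤ b} \ {w : ℂ | ‖w‖ ≤ a})) :=
              measure_mono (fun w hw => by
                by_cases hwa : ‖w‖ ≤ a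
                · exact Or.inl hwa
                · exact Or.inr ⟨hw, hwa⟩)
          _ ≤ μ {w : ℂ | ‖w‖ ≤ a} + μ ({w : ℂ | ‖w‖ ≤ b} \ {w : ℂ | ‖w‖ ≤ a}) :=
              measure_union_le _ _
          _ = _ := by rw [hdiff, add_zero]
      · exact measure_mono hsub
    rw [measureReal_def, measureReal_def, h3]
  have hF : ∀ s : ℝ, 0 < s → ∑ i, q s i * VP.bv (profile σ) (p s) i
      = n * (1 - μ.real {w : ℂ | ‖w‖ ≤ s}) := by
    intro s hs
    rw [hcdf s hs]
    have : ∑ i, q s i * VP.bv (profile σ) (p s) i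
        = ∑ i, q s i * ∑ j, profile σ i j * p s j := rfl
    rw [this]
    field_simp
    ring
  filter_upwards [hnb] with s hs
  have hs0 : 0 < s := (le_max_left _ _).trans_lt hs.1
  rw [hF s hs0, hF ‖z‖ hz0]
  have hzmem : ‖z‖ ∈ Ioo (max 0 (‖z‖ - r)) (‖z‖ + r) := mem_of_mem_nhds hnb
  rcases le_total s ‖z‖ with hle | hle
  · rw [hpair s ‖z‖ hs hzmem hle]
  · rw [hpair ‖z‖ s hzmem hs hle]

/-- points outside the closed disc do not lie in the support -/
theorem support_subset {n : ℕ} (hn : 1 ≤ n) {σ : Matrix (Fin n) (Fin n) ℝ} (hσ : Irreducible σ)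
    {μ : Measure ℂ} (hμ : IsDetEquiv σ μ) :
    μ.support ⊆ Metric.closedBall 0 √(rho (profile σ)) := by
  have hV := good_of hn hσ
  have := hμ.prob
  obtain ⟨q, p, hsel, hcdf⟩ := hμ.cdf
  intro z hz
  by_contra hcon
  rw [Metric.mem_closedBall, dist_zero_right, not_le] at hcon
  set R := √(rho (profile σ)) with hR
  have hR0 : 0 ≤ R := Real.sqrt_nonneg _
  set s := (‖z‖ + R) / 2 with hs
  have hs1 : R < s := by rw [hs]; linarith
  have hs2 : s < ‖z‖ := by rw [hs]; linarith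
  have hs0 : 0 < s := hR0.trans_lt hs1
  have hzero : q s = 0 ∧ p s = 0 := by
    by_contra hne
    have h1 := VP.sq_lt_specRad hV hs0 (isSol_of (hsel.sol s hs0)) hne
    have h2 : rho (profile σ) ≤ s ^ 2 := by
      have h3 : rho (profile σ) = R ^ 2 := by
        rw [hR, Real.sq_sqrt (show 0 ≤ rho (profile σ) from ENNReal.toReal_nonneg)]
      rw [h3]
      exact pow_le_pow_left₀ hR0 hs1.le 2
    exact absurd h1 (not_lt.2 h2)
  have hone : μ.real {w : ℂ | ‖w‖ ≤ s} = 1 := by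
    rw [hcdf s hs0, hzero.1]
    simp
  have hmeas : MeasurableSet {w : ℂ | ‖w‖ ≤ s} :=
    (isClosed_le continuous_norm continuous_const).measurableSet
  have hcompl : μ {w : ℂ | ‖w‖ ≤ s}ᶜ = 0 := by
    have h1 : μ.real {w : ℂ | ‖w‖ ≤ s}ᶜ = 0 := by
      rw [probReal_compl_eq_one_sub hmeas, hone, sub_self]
    exact (measureReal_eq_zero_iff).1 h1
  have hnhds : {w : ℂ | ‖w‖ ≤ s}ᶜ ∈ 𝓝 z := by
    refine (isClosed_le continuous_norm continuous_const).isOpen_compl.mem_nhds ?_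
    show ¬ (‖z‖ ≤ s)
    exact not_le.2 hs2
  have := (Measure.mem_support_iff_forall z).1 hz _ hnhds
  rw [hcompl] at this
  exact lt_irrefl _ this

theorem support_eq {n : ℕ} (hn : 1 ≤ n) {σ : Matrix (Fin n) (Fin n) ℝ} (hσ : Irreducible σ)
    {μ : Measure ℂ} (hμ : IsDetEquiv σ μ) :
    μ.support = Metric.closedBall 0 √(rho (profile σ)) := by
  have := hμ.prob
  refine Subset.antisymm (support_subset hn hσ hμ) ?_
  set R := √(rho (profile σ)) with hR
  have hR0 : 0 ≤ R := Real.sqrt_nonneg _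
  rcases hR0.eq_or_lt with h0 | hpos
  · have hsub := support_subset hn hσ hμ
    rw [← hR, ← h0, Metric.closedBall_zero] at hsub
    obtain ⟨w, hw⟩ := Measure.nonempty_support (IsProbabilityMeasure.ne_zero μ)
    rw [← h0, Metric.closedBall_zero]
    have hw0 : w = 0 := hsub hw
    rintro z rfl
    rw [← hw0]
    exact hw
  · rw [← closure_ball (0 : ℂ) hpos.ne']
    refine closure_minimal ?_ Measure.isClosed_support
    have hd : Dense ({0}ᶜ : Set ℂ) := dense_compl_singleton 0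
    have h1 : Metric.ball (0 : ℂ) R ⊆ closure (Metric.ball (0 : ℂ) R ∩ {0}ᶜ) :=
      hd.open_subset_closure_inter Metric.isOpen_ball
    refine h1.trans (closure_minimal ?_ Measure.isClosed_support)
    rintro z ⟨hz1, hz2⟩
    refine mem_support hn hσ hμ (norm_pos_iff.2 hz2) ?_
    rw [Metric.mem_ball, dist_zero_right] at hz1
    exact hz1

/-- **Main result.** Let `σ` be a nonnegative irreducible `n × n` matrix, `n ≥ 1`, whose
deterministic equivalent `μ` is defined. Then the support of `μ` is the closed disc of radius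
`√ρ(V)`; in particular it is connected. -/
theorem result (n : ℕ) (hn : 1 ≤ n) (σ : Matrix (Fin n) (Fin n) ℝ) (hσ : Irreducible σ)
    (μ : Measure ℂ) (hμ : IsDetEquiv σ μ) :
    IsConnected μ.support ∧ μ.support = Metric.closedBall 0 √(rho (profile σ)) := by
  have h := support_eq hn hσ hμ
  refine ⟨?_, h⟩
  rw [h]
  exact ⟨Metric.nonempty_closedBall.2 (Real.sqrt_nonneg _),
    (convex_closedBall _ _).isPreconnected⟩

end Pool.Agent.Results.MP_44eb1e_pr.DiscSupport
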